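import Pool.Agent.Results.MP_295d38_ag.FamiliesWithPreperiodicMembers
import Pool.Agent.V1138.BO.Many
import Pool.Agent.V1138.BO.Eis

/-!
# MP_295d38_ag: the dynamical Mordell-Lang conjecture for families with a preperiodic member and
parameters in a backward orbit

**Families.** Let `F_{t,0}, …, F_{t,N}` be forms of degree `d` in `N + 1` variables, let `x(t)` be a
point with coordinates `x_0(t), …, x_N(t)`, and let `V_t ⊂ ℙ^N` be the closed set defined by forms
`G_{t,k}`, `k ∈ κ` (`κ` finite), all coefficients being polynomials in `t`. So `F_t` is a
one-parameter family of rational self-maps of `ℙ^N`. It can be a family of endomorphisms of `ℙ^N`, a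
family of polynomial self-maps of the affine space (`F_{t,0} = X_0^d`), hence of an
affine variety, or be constant. For `t ∈ ℂ` let `R_t` be the set of the `n` such that the
`n`-th iterate of `x(t)` is a point of `V_t`.

**Parameters.** Let `φ_1, …, φ_r` and `g` be polynomials with integral coefficients such that all the
composites `g ∘ φ_{i_1} ∘ … ∘ φ_{i_m}` are irreducible, and `deg g · deg φ_i ≥ 2` for all `i`. The
backward orbit of the roots of `g` is the set of the complex numbers `t` with
`g (φ_{i_1} (… (φ_{i_m} (t)))) = 0` for some word `i_1 … i_m` (`InBackwardOrbit`). For `r = 1` and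
`g = X - β` these are the iterated preimages of `β` under a polynomial map. The composites are
irreducible for example (theorem `Pool.Agent.V1138.BO.eisenstein`) if `g = X - β` and the `φ_i` are
monic polynomials of degree at least two which are powers of `X` modulo a prime number `p`, with
`p ∣ β` and `p ^ 2 ∤ φ_i (0) - β`. These parameters are algebraic numbers of unbounded degree
(the degree is `deg g` times the product of the degrees of the `φ_{i_k}`) and, for `deg φ_i ≥ 2`, of
bounded height. A rational number `α` is called wandering if for every `y` there are only finitely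
many words with `φ_{i_1} (… (φ_{i_m} (α))) = y` (for `r = 1`: `α` is not preperiodic).

**Theorem.** Let `α` be a wandering rational number such that the orbit of
`x(α)` under `F_α` is defined (no iterate is zero) and finite (in `ℙ^N`), and such that

* the cycle of the orbit does not meet `V_α` (that is, `R_α` is finite), or
* the matrix of the partial derivatives of the `F_{α,i}` is invertible at the iterates of `x(α)` from
  some index on (that is, `F_α` is étale at the points of the cycle).

Then for all but finitely many `t` in the backward orbit of the roots of `g` under the semigroup of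
the `φ_i` the orbit of `x(t)` under `F_t` is defined, `R_t` is a finite union of arithmetic
progressions, and `R_t ⊆ R_α`.

One such member is sufficient. For example if the cycle does not meet
`V_α`, then the `R_t` are finite and contained in one finite set, and no condition on the
ramification of the maps is needed. The family `F_t` can be the family of the maps `φ` itself, or
constant. The starting file `FamiliesWithPreperiodicMembers` treats
transcendental `t` and the `t` of degree at most `δ`, for which `2 δ + 1` such members are needed.

The proof: if `t` is `p`-adically near to `α` for an embedding of `ℂ` into the algebraic closure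
of `ℚ_p`, for which all data have good reduction, then the orbits of `x(t)` and `x(α)` have the same
reduction (starting file).

**The arithmetic** (`Pool.Agent.V1138.BO`). If `α` is wandering then for all but finitely many words the
(homogenized) value at `α` of the minimal polynomial `g ∘ φ_{i_1} ∘ … ∘ φ_{i_m}` of the parameter
has a prime factor larger than a given number `D`. Up to powers of the denominator of `α` it is
`g_1 (y)` with `g_1 = g ∘ φ_{i_1}` and `y = φ_{i_2} (… (φ_{i_m} (α)))`, an `S`-integer, and by
the unit equation in the field generated by two roots of `g_1` there are only finitely many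
`S`-integers `y` such that `g_1 (y)` is an `S`-unit.
-/

set_option autoImplicit false

open Polynomial Pool.Agent.H936R2 Pool.Agent.Y199.DM Pool.Agent.Y152.BD

namespace Pool.Agent.Results.MP_295d38_ag.BackwardOrbits

open Pool.Agent.V1138.BO (cmp act)
open Pool.Agent.Results.MP_295d38_ag.FamiliesWithPreperiodicMembers
  (member start returns DMLAt near)

variable {N : ℕ} {κ : Type}

/-- `t` is in the backward orbit of the roots of `g` under the semigroup generated by the
polynomials `φ i`: `g (φ_{i_1} (… (φ_{i_m} (t)))) = 0` for some word `i_1 … i_m`. -/
def InBackwardOrbit {r : ℕ} (φ : Fin r → Polynomial ℤ) (g : Polynomial ℤ) (t : ℂ) : Prop :=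
  ∃ w : List (Fin r), Polynomial.aeval (act φ w t) g = 0

/-- All composites `g ∘ φ_{i_1} ∘ … ∘ φ_{i_m}` are irreducible, and those with `m = 1` have degree at
least two. -/
def IrreducibleComposites {r : ℕ} (φ : Fin r → Polynomial ℤ) (g : Polynomial ℤ) : Prop :=
  (∀ w : List (Fin r), Irreducible (cmp φ g w)) ∧ ∀ i, 2 ≤ g.natDegree * (φ i).natDegree

/-- Every number is the image of `α` for only finitely many words. -/
def Wandering {r : ℕ} (φ : Fin r → Polynomial ℤ) (α : ℚ) : Prop :=
  ∀ y : ℚ, {w : List (Fin r) | act φ w α = y}.Finite

/-- **The dynamical Mordell-Lang conjecture for families with a preperiodic member**, for all but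
finitely many parameters in a backward orbit. -/
theorem result [Finite κ] {d : ℕ} (F : Fin (N + 1) → MvPolynomial (Fin (N + 1)) ℂ[X])
    (hF : ∀ i, (F i).IsHomogeneous d) (x : Fin (N + 1) → ℂ[X])
    (G : κ → MvPolynomial (Fin (N + 1)) ℂ[X]) (e : κ → ℕ) (hG : ∀ k, (G k).IsHomogeneous (e k))
    (r : ℕ) (φ : Fin r → ℤ[X]) (g : ℤ[X]) (hφ : IrreducibleComposites φ g)
    (α : ℚ) (hα : Wandering φ α) (hα1 : Preperiodic (member F α) (start x α))
    (hα2 : (returns F x G α).Finite ∨ EventuallyEtale (member F α) (start x α)) :
    {t : ℂ | InBackwardOrbit φ g t ∧
      ¬ (DMLAt F x G t ∧ returns F x G t ⊆ returns F x G α)}.Finite := by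
  classical
  obtain ⟨u, huK, hu⟩ := near F hF x G e hG α hα1 hα2
  obtain ⟨D, hD⟩ := emb_alg u
  refine (Pool.Agent.V1138.BO.finite_badB (D + α.den) (M := 1) (L := 1) le_rfl (fun _ => α) φ g
    hφ.2 hφ.1 (fun _ => hα)).subset ?_
  rintro t ⟨htδ, hbad⟩
  refine ⟨htδ, ?_⟩
  rintro ⟨f, hf, P, hP, hPt, hp⟩
  apply hbad
  obtain ⟨p, hp, hpD, hdvd⟩ := hp 0
  have : Fact p.Prime := ⟨hp⟩
  have hden : ¬ p ∣ α.den := by
    intro h
    have := Nat.le_of_dvd α.den_pos h
    omega
  obtain ⟨τ, hτ, hτt⟩ := hD p (by omega) t P hP hPt α hden hdvd
  exact hu p τ hden hτ t hτt

end Pool.Agent.Results.MP_295d38_ag.BackwardOrbits
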