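import Pool.Agent.Results.MP_295d38_ag.FamiliesWithPreperiodicMembers
import Pool.Agent.V1138.SP.Many

/-!
# MP_295d38_ag: the dynamical Mordell-Lang conjecture for families with preperiodic members and
parameters with sparse minimal polynomial

**Families.** Let `F_{t,0}, …, F_{t,N}` be forms of degree `d` in `N + 1` variables, let `x(t)` be a
point with coordinates `x_0(t), …, x_N(t)`, and let `V_t ⊂ ℙ^N` be the closed set defined by forms
`G_{t,k}`, `k ∈ κ` (`κ` finite), all coefficients being polynomials in `t`. So `F_t` is a
one-parameter family of rational self-maps of `ℙ^N`. It can be a family of endomorphisms of `ℙ^N`, a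
family of polynomial self-maps of the affine space (`F_{t,0} = X_0^d`), hence of an
affine variety, or be constant. For `t ∈ ℂ` let `R_t` be the set of the `n` such that the
`n`-th iterate of `x(t)` is a point of `V_t`.

**Theorem.** Let `A` be a finite set of nonzero rational numbers such that for all `α ∈ A` the orbit of
`x(α)` under `F_α` is defined (no iterate is zero) and finite (in `ℙ^N`), and such that

* the cycle of the orbit does not meet `V_α` (that is, `R_α` is finite), or
* the matrix of the partial derivatives of the `F_{α,i}` is invertible at the iterates of `x(α)` from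
  some index on (that is, `F_α` is étale at the points of the cycle).

If `A` has at least `L + 6 s (s + 1)` elements, `L ≥ 1`, then for all but finitely many algebraic
numbers `t` whose minimal polynomial (the irreducible polynomial with integral coefficients with the
root `t`) has at most `s + 1` terms the orbit of `x(t)` is defined, `R_t` is a finite union of
arithmetic progressions, and `R_t ⊆ R_α` for at least `L` of the `α ∈ A`.

The degree of `t` and the coefficients of the minimal polynomial are arbitrary; for `s = 2` the
parameters are all the roots of irreducible trinomials and binomials. So the dynamical Mordell-Lang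
conjecture holds for these `F_t`, `x(t)`, `V_t`, in a uniform way: the
finitely many sets `R_α` contain all the sets `R_t`. For example if the cycles do not meet the
`V_α`, then the `R_t` are finite and `n < max n₀(α)` for all `n ∈ R_t`, and no condition on the
ramification of the maps is needed; if moreover no `n` is in `L` of the `R_α` then the orbit of
`x(t)` does not meet `V_t`. The starting file `FamiliesWithPreperiodicMembers` treats
transcendental `t` and the `t` of degree at most `δ` (if `A` has `L + 2 δ` elements); these
have minimal polynomials with at most `δ + 1` terms.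

The proof: if `t` is `p`-adically near to `α ∈ A` for an embedding of `ℂ` into the algebraic closure
of `ℚ_p`, for which all data have good reduction, then the orbits of `x(t)` and `x(α)` have the same
reduction (starting file). Such embeddings exist for all but finitely many `t` by the following
theorem (`Pool.Agent.V1138.SP`). Let `α_1, …, α_C` be distinct positive rational numbers,
`C = 3 s (s + 1) + 1`, and `D` a number. For all but finitely many `t ≠ 0` whose minimal polynomial
has `s + 1` terms its (homogenized) value at one of the `α_l` has a prime factor larger than `D`: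
`t` is not `S`-integral relative to `α_1, …, α_C`. Here both the exponents and
the coefficients of the minimal polynomial vary. The proof works in a field of germs of sequences of
rational numbers, which is graded by the rates of growth of the exponents of `S`-units (subspace
theorem, `Pool.Agent.TH551.SU`); it uses Cramer's rule and the rule of signs of Descartes.
-/

set_option autoImplicit false

open Polynomial Pool.Agent.H936R2 Pool.Agent.Y199.DM Pool.Agent.Y152.BD

namespace Pool.Agent.Results.MP_295d38_ag.SparseMembers

open Pool.Agent.Results.MP_295d38_ag.FamiliesWithPreperiodicMembers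
  (member start returns DMLAt near)

variable {N : ℕ} {κ : Type}

/-- The minimal polynomial of `t` over the integers has at most `s + 1` terms. -/
def SparseMinimalPolynomial (s : ℕ) (t : ℂ) : Prop :=
  ∃ P : ℤ[X], Irreducible P ∧ P.support.card ≤ s + 1 ∧ aeval t P = 0

/-- **The dynamical Mordell-Lang conjecture for families with preperiodic members**, for all but
finitely many parameters with sparse minimal polynomial. -/
theorem result [Finite κ] {d : ℕ} (F : Fin (N + 1) → MvPolynomial (Fin (N + 1)) ℂ[X])
    (hF : ∀ i, (F i).IsHomogeneous d) (x : Fin (N + 1) → ℂ[X])
    (G : κ → MvPolynomial (Fin (N + 1)) ℂ[X]) (e : κ → ℕ) (hG : ∀ k, (G k).IsHomogeneous (e k))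
    (A : Finset ℚ) (hA0 : (0 : ℚ) ∉ A)
    (hA : ∀ α ∈ A, Preperiodic (member F α) (start x α) ∧
      ((returns F x G α).Finite ∨ EventuallyEtale (member F α) (start x α)))
    (L s : ℕ) (hL : 1 ≤ L) (hs : L + 6 * s * (s + 1) ≤ A.card) :
    {t : ℂ | SparseMinimalPolynomial s t ∧ ¬ (DMLAt F x G t ∧ ∃ B ⊆ A, B.card = L ∧
      ∀ α ∈ B, returns F x G t ⊆ returns F x G α)}.Finite := by
  classical
  let a : Fin A.card → ℚ := fun l => A.orderEmbOfFin rfl l
  have ha : Function.Injective a := (A.orderEmbOfFin rfl).injective
  have haA : ∀ l, a l ∈ A := fun l => A.orderEmbOfFin_mem rfl l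
  have ha0 : ∀ l, a l ≠ 0 := fun l h => hA0 (h ▸ haA l)
  choose u huK hu using fun l => near F hF x G e hG (a l) (hA _ (haA l)).1 (hA _ (haA l)).2
  choose D hD using fun l => emb_alg (u l)
  let D' : ℕ := ∑ l, (D l + (a l).den)
  refine (Pool.Agent.V1138.SP.finite_badS D' s (M := A.card) (L := L) hs a ha ha0).subset ?_
  rintro t ⟨htδ, hbad⟩
  refine ⟨htδ, ?_⟩
  rintro ⟨f, hf, P, hP, hPt, hp⟩
  apply hbad
  have key : ∀ l : Fin L, DMLAt F x G t ∧ returns F x G t ⊆ returns F x G (a (f l)) := by
    intro l
    obtain ⟨p, hp, hpD, hdvd⟩ := hp l
    have : Fact p.Prime := ⟨hp⟩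
    have hle : D (f l) + (a (f l)).den ≤ D' :=
      Finset.single_le_sum (f := fun l => D l + (a l).den) (fun _ _ => Nat.zero_le _)
        (Finset.mem_univ (f l))
    have hden : ¬ p ∣ (a (f l)).den := by
      intro h
      have := Nat.le_of_dvd (a (f l)).den_pos h
      omega
    obtain ⟨τ, hτ, hτt⟩ := hD (f l) p (by omega) t P hP hPt (a (f l)) hden hdvd
    exact hu (f l) p τ hden hτ t hτt
  refine ⟨(key ⟨0, hL⟩).1, Finset.univ.image fun l => a (f l), ?_, ?_, ?_⟩
  · intro α hα
    obtain ⟨l, -, rfl⟩ := Finset.mem_image.1 hα
    exact haA _
  · have hinj : Function.Injective fun l => a (f l) := ha.comp hf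
    rw [Finset.card_image_of_injective _ hinj, Finset.card_univ, Fintype.card_fin]
  · intro α hα
    obtain ⟨l, -, rfl⟩ := Finset.mem_image.1 hα
    exact (key l).2

end Pool.Agent.Results.MP_295d38_ag.SparseMembers
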