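import Pool.Agent.Results.MP_295d38_ag.FamiliesWithPreperiodicMembers
import Pool.Agent.V1138.FZ.Ex

/-!
# MP_295d38_ag: the dynamical Mordell-Lang conjecture for families with a preperiodic member, with
values of a rational function at roots of unity as parameters

**Families.** Let `F_{t,0}, …, F_{t,N}` be forms of degree `d` in `N + 1` variables, let `x(t)` be a
point with coordinates `x_0(t), …, x_N(t)`, and let `V_t ⊂ ℙ^N` be the closed set defined by forms
`G_{t,k}`, `k ∈ κ` (`κ` finite), all coefficients being polynomials in `t`. So `F_t` is a
one-parameter family of rational self-maps of `ℙ^N`. It can be a family of endomorphisms of `ℙ^N`, a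
family of polynomial self-maps of the affine space (`F_{t,0} = X_0^d`), hence of an
affine variety, or be constant. For `t ∈ ℂ` let `R_t` be the set of the `n` such that the
`n`-th iterate of `x(t)` is a point of `V_t`.

**Parameters.** Let `f = P / Q` be a rational function, where `P` and `Q` are coprime polynomials
with integral coefficients. The parameters are the values `t = f (ζ)` of `f` at the roots of unity
`ζ` of all orders (`IsTorsionValue`), for example the numbers `2 cos (2 π ρ)`, `ρ` rational
(`f = X + 1 / X`). These parameters are algebraic numbers of unbounded degree and of bounded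
height. A rational number `α` is called admissible if `f (x) ≠ α` for all complex numbers `x` of
absolute value `1`, and `f (x) = α` for at least one `x ≠ 0`. For example for `f = X + 1 / X` the
`α` with `|α| > 2` are admissible (theorems `cheb_value` and `cheb_admissible` in
`Pool.Agent.V1138.FZ.Ex`), and for `f = X` the `α` with `|α| ≠ 0, 1`.

**Theorem.** Let `α` be an admissible rational number such that the orbit of
`x(α)` under `F_α` is defined (no iterate is zero) and finite (in `ℙ^N`), and such that

* the cycle of the orbit does not meet `V_α` (that is, `R_α` is finite), or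
* the matrix of the partial derivatives of the `F_{α,i}` is invertible at the iterates of `x(α)` from
  some index on (that is, `F_α` is étale at the points of the cycle).

Then for all but finitely many parameters `t = f (ζ)` the orbit of `x(t)` under `F_t` is defined,
`R_t` is a finite union of arithmetic progressions, and `R_t ⊆ R_α`.

One such member is sufficient. For example if the cycle does not meet
`V_α`, then the `R_t` are finite and contained in one finite set, and no condition on the
ramification of the maps is needed. The family `F_t` can be constant. The starting file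
`FamiliesWithPreperiodicMembers` treats transcendental `t` and the `t` of degree at most `δ`, for
which `2 δ + 1` such members are needed.

The proof: if `t` is `p`-adically near to `α` for an embedding of `ℂ` into the algebraic closure
of `ℚ_p`, for which all data have good reduction, then the orbits of `x(t)` and `x(α)` have the same
reduction (starting file).

**The arithmetic** (`Pool.Agent.V1138.FZ`). If `α = u / v` is admissible then for all roots of unity `ζ`
of large order the (homogenized) value at `α` of the minimal polynomial of `f (ζ)` has a prime factor
larger than a given number `D`. The polynomial `h = u Q - v P` has no zeros on the unit circle, and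
after division by its content its Mahler measure `μ` is larger than `1` (Kronecker). The resultant
of `h` and the `n`-th cyclotomic polynomial `Φ_n` has at least the size `μ ^ φ(n)` up to a constant.
Its part at the primes `p ≤ D` is bounded: if `Φ_n (β)`, `β` a zero of `h`, is divisible at a place
above `p` by more than `p` then `n` is the order of `β` modulo this divisor.
-/

set_option autoImplicit false

open Polynomial Pool.Agent.H936R2 Pool.Agent.Y199.DM Pool.Agent.Y152.BD

namespace Pool.Agent.Results.MP_295d38_ag.TorsionValues

open Pool.Agent.Results.MP_295d38_ag.FamiliesWithPreperiodicMembers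
  (member start returns DMLAt near)

variable {N : ℕ} {κ : Type}

/-- `t` is the value of `P / Q` at a root of unity. -/
def IsTorsionValue (P Q : Polynomial ℤ) (t : ℂ) : Prop :=
  ∃ ζ : ℂ, (∃ n : ℕ, 0 < n ∧ ζ ^ n = 1) ∧ Polynomial.aeval ζ Q ≠ 0 ∧
    t = Polynomial.aeval ζ P / Polynomial.aeval ζ Q

/-- `P` and `Q` have no common factor over the rational numbers. -/
def NoCommonFactor (P Q : Polynomial ℤ) : Prop :=
  IsCoprime (P.map (Int.castRingHom ℚ)) (Q.map (Int.castRingHom ℚ))

/-- `P / Q` does not take the value `α` on the unit circle, and takes it at a nonzero number. -/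
def Admissible (P Q : Polynomial ℤ) (α : ℚ) : Prop :=
  (∀ x : ℂ, ‖x‖ = 1 → Polynomial.aeval x P ≠ (α : ℂ) * Polynomial.aeval x Q) ∧
    ∃ x : ℂ, x ≠ 0 ∧ Polynomial.aeval x P = (α : ℂ) * Polynomial.aeval x Q

/-- **The dynamical Mordell-Lang conjecture for families with a preperiodic member**, for all but
finitely many of the parameters `P (ζ) / Q (ζ)`. -/
theorem result [Finite κ] {d : ℕ} (F : Fin (N + 1) → MvPolynomial (Fin (N + 1)) ℂ[X])
    (hF : ∀ i, (F i).IsHomogeneous d) (x : Fin (N + 1) → ℂ[X])
    (G : κ → MvPolynomial (Fin (N + 1)) ℂ[X]) (e : κ → ℕ) (hG : ∀ k, (G k).IsHomogeneous (e k))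
    (P Q : ℤ[X]) (hPQ : NoCommonFactor P Q) (α : ℚ) (hα : Admissible P Q α) (hα1 : Preperiodic (member F α) (start x α))
    (hα2 : (returns F x G α).Finite ∨ EventuallyEtale (member F α) (start x α)) :
    {t : ℂ | IsTorsionValue P Q t ∧
      ¬ (DMLAt F x G t ∧ returns F x G t ⊆ returns F x G α)}.Finite := by
  classical
  obtain ⟨u, huK, hu⟩ := near F hF x G e hG α hα1 hα2
  obtain ⟨D, hD⟩ := emb_alg u
  refine (Pool.Agent.V1138.FZ.finite_badF (D + α.den) (M := 1) (L := 1) le_rfl (fun _ => α) P Q
    hPQ (fun _ => hα.1) (fun _ => hα.2)).subset ?_
  rintro t ⟨htδ, hbad⟩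
  refine ⟨htδ, ?_⟩
  rintro ⟨f, hf, W, hW, hWt, hp⟩
  apply hbad
  obtain ⟨p, hp, hpD, hdvd⟩ := hp 0
  have : Fact p.Prime := ⟨hp⟩
  have hden : ¬ p ∣ α.den := by
    intro h
    have := Nat.le_of_dvd α.den_pos h
    omega
  obtain ⟨τ, hτ, hτt⟩ := hD p (by omega) t W hW hWt α hden hdvd
  exact hu p τ hden hτ t hτt

end Pool.Agent.Results.MP_295d38_ag.TorsionValues
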