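import Pool.Agent.Results.MP_295d38_ag.AlgebraicPreperiodicMembers
import Pool.Agent.V11285.FW

/-!
# The dynamical Mordell-Lang conjecture for ALL members of the families with parameters in windows around `α v_k`

For the families of `AlgebraicPreperiodicMembers`, where all but `C (log B) ^ s` of the parameters of denominator `v ≤ B` and
numerator at most `B` are good: for all `α > 0` outside a set of Hausdorff dimension `0` and all `θ < 1` ALL integers `t`
with `|t - α b ^ k| ≤ b ^ (θ k)` are good for large `k`; for all `α > 0` outside a set of dimension at most `1 / 2` all but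
finitely many convergents `t` of `α` are good.
-/

set_option autoImplicit false

open Polynomial Pool.Agent.H936R2 Pool.Agent.Y199.DM

namespace Pool.Agent.Results.MP_295d38_ag.WindowsOfParameters

open Pool.Agent.Results.MP_295d38_ag.AlgebraicPreperiodicMembers (member start returns)

/-- the exponent of convergence of the sequence `v` is at most `τ` -/
def ExpLe (v : ℕ → ℝ) (τ : ℝ) : Prop := ∀ t : ℝ, τ < t → Summable (fun k : ℕ => (v k) ^ (-t))

/-- The property `P` of rational numbers has no exceptions in windows and among good approximations, for most `α > 0`: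
(1) for all sequences `v ≥ 1` with exponent of convergence at most `τ`, all denominators `q_k ≤ v_k ^ c` and `θ < 1`, for
all `α > 0` outside a set of Hausdorff dimension at most `τ / (1 - θ)` and all large `k`, ALL `t = u / q_k` in lowest terms
with `|u - α v_k| ≤ v_k ^ θ` have the property (for instance all integers `t` with `|t - α v_k| ≤ v_k ^ θ`);
(2) if `τ = 0`, for instance if `v_k = b ^ k`, one set of dimension `0` serves all `θ < 1`;
(3) for all `α > 0` outside a set of dimension at most `1 / β` all but finitely many rational numbers `t = u / q` with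
`|α - t| ≤ q ^ (-β)` have the property; for `β = 2` these `t` include all convergents of `α`. -/
def AllWindows (P : ℚ → Prop) : Prop :=
  (∀ (v : ℕ → ℝ) (q : ℕ → ℕ) (τ θ c : ℝ), (∀ k, 1 ≤ v k) → 0 ≤ τ → ExpLe v τ → θ < 1 →
    (∀ k, (q k : ℝ) ≤ (v k) ^ c) →
    ∃ E : Set ℝ, dimH E ≤ ENNReal.ofReal (τ / (1 - θ)) ∧ ∀ α : ℝ, 0 < α → α ∉ E →
      ∃ k₀ : ℕ, ∀ k : ℕ, k₀ ≤ k → ∀ t : ℚ, t.den = q k → |(t.num : ℝ) - α * v k| ≤ (v k) ^ θ → P t) ∧
  (∀ (v : ℕ → ℝ) (q : ℕ → ℕ) (c : ℝ), (∀ k, 1 ≤ v k) → ExpLe v 0 → (∀ k, (q k : ℝ) ≤ (v k) ^ c) →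
    ∃ E : Set ℝ, dimH E = 0 ∧ ∀ α : ℝ, 0 < α → α ∉ E → ∀ θ : ℝ, θ < 1 →
      ∃ k₀ : ℕ, ∀ k : ℕ, k₀ ≤ k → ∀ t : ℚ, t.den = q k → |(t.num : ℝ) - α * v k| ≤ (v k) ^ θ → P t) ∧
  (∀ β : ℝ, 1 < β → ∃ E : Set ℝ, dimH E ≤ ENNReal.ofReal (1 / β) ∧ ∀ α : ℝ, 0 < α → α ∉ E →
    {t : ℚ | |α - t| ≤ (t.den : ℝ) ^ (-β) ∧ ¬ P t}.Finite)

/-- **Dynamical Mordell-Lang for all parameters in windows.** Let `F_t` be a one-parameter family of systems of forms
of degree `d`, `x(t)` a family of starting points and `V_t` a family of closed sets (`G_t`), with complex polynomials in `t`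
as coefficients, and let `α_1, …, α_M` be algebraic numbers such that the orbit of `x(α_l)` under `F_{α_l}` is defined and
finite in `ℙ^N`. Suppose that the intersection of the sets `R_{α_l}` of the return times is finite, or that for some `l`
the system `F_{α_l}` is étale at the iterates of `x(α_l)` from some index on. The property 'the orbit of `x(t)` is
defined, `R_t` is a finite union of arithmetic progressions, and `R_t ⊆ R_{α_l}` for all `l`' has no exceptions in windows
and among good approximations, for most `α` (`AllWindows`). -/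
theorem result :
    (∀ {N : ℕ} {κ : Type} [Finite κ] {d M : ℕ} (F : Fin (N + 1) → MvPolynomial (Fin (N + 1)) ℂ[X])
      (_ : ∀ i, (F i).IsHomogeneous d) (x : Fin (N + 1) → ℂ[X])
      (G : κ → MvPolynomial (Fin (N + 1)) ℂ[X]) (e : κ → ℕ) (_ : ∀ k, (G k).IsHomogeneous (e k))
      (α : Fin M → ℂ) (_ : ∀ l, IsAlgebraic ℚ (α l))
      (_ : ∀ l, Preperiodic (member F (α l)) (start x (α l)))
      (_ : {n : ℕ | ∀ l, n ∈ returns F x G (α l)}.Finite ∨
        ∃ l, EventuallyEtale (member F (α l)) (start x (α l))),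
      AllWindows fun t : ℚ => (∀ n, (pt (member F t))^[n] (start x t) ≠ 0) ∧
        IsFiniteUnionOfAP (returns F x G t) ∧ ∀ l, returns F x G t ⊆ returns F x G (α l)) ∧
    (∀ a : ℝ, 0 < a → ExpLe (fun k : ℕ => ((k : ℝ) + 1) ^ a) (1 / a)) ∧
    (∀ b : ℝ, 1 < b → ExpLe (fun k : ℕ => b ^ k) 0) := by
  refine ⟨fun {N κ} _ {d M} F hF x G e hG α hα hpre hR => ?_, fun a ha => Pool.Agent.Y854.GM.expLe_pow a ha,
    fun b hb => Pool.Agent.Y854.GM.expLe_geom b hb⟩
  exact Pool.Agent.V11285.FW.allWindows (AlgebraicPreperiodicMembers.result F hF x G e hG α hα hpre hR)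

end Pool.Agent.Results.MP_295d38_ag.WindowsOfParameters
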